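import Mathlib

namespace Pool.Agent.KS6_49.WC

/-- `u = w` or `u` adjacent to `w`: the moves allowed in one turn. -/
def Move {V : Type} (G : SimpleGraph V) (u w : V) : Prop := u = w ∨ G.Adj u w

/-- A play is a pair of sequences (cop `c`, robber `r`): `c (k+1)` is the cop's vertex after his
`(k+1)`-st move, made when the robber is at `r k`; `r (k+1)` is the robber's vertex after his
`(k+1)`-st move, made when the cop is at `c (k+1)`. The robber is caught if they are ever at the
same vertex. -/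
def Caught {V : Type} (c r : ℕ → V) : Prop := ∃ k, c k = r k ∨ c (k + 1) = r k

/-- Cop strategies: maps from robber plays to cop plays; the cop's vertex at time `k` depends only
on the robber's vertices at times `< k` (in particular the starting vertex is fixed). -/
def CopStrategy {V : Type} (γ : (ℕ → V) → ℕ → V) : Prop :=
  ∀ r r' k, (∀ i < k, r i = r' i) → γ r k = γ r' k

/-- Robber strategies: maps from cop plays to robber plays; the robber's vertex at time `k`
depends only on the cop's vertices at times `≤ k`. -/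
def RobberStrategy {V : Type} (σ : (ℕ → V) → ℕ → V) : Prop :=
  ∀ c c' k, (∀ i ≤ k, c i = c' i) → σ c k = σ c' k

/-- Weak cop win: the cop has a strategy such that against every play of the robber he either
catches him, or every vertex is occupied by the robber at only finitely many times. -/
def WeakCopWin {V : Type} (G : SimpleGraph V) : Prop :=
  ∃ γ : (ℕ → V) → ℕ → V, CopStrategy γ ∧ ∀ r : ℕ → V, (∀ k, Move G (r k) (r (k + 1))) →
    (∀ k, Move G (γ r k) (γ r (k + 1))) ∧
    (Caught (γ r) r ∨ ∀ x, {k | r k = x}.Finite)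

/-- The double long return property. -/
def DoubleLongReturnProperty {V : Type} (G : SimpleGraph V) : Prop :=
  ∀ c₀ : V, ∃ v : V, ∀ m n : ℕ, 0 < m → 0 < n →
    ∃ σ : (ℕ → V) → ℕ → V, RobberStrategy σ ∧
      ∀ c : ℕ → V, c 0 = c₀ → (∀ k, Move G (c k) (c (k + 1))) →
        σ c 0 = v ∧ (∀ k, Move G (σ c k) (σ c (k + 1))) ∧ ¬ Caught c (σ c) ∧
        ((∃ S : Set V, S.Finite ∧ ∀ k, σ c k ∈ S) ∨
          ∃ t s, m ≤ t ∧ t + n ≤ s ∧ σ c t = v ∧ σ c s = v)

/-- The schedule property: for every start of the cop there is a vertex `v` such that for all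
`m`, `N` and every schedule `h` (distances from `v` at the times `0, …, N`, starting with `0` and
changing by at most one in a move) the robber, starting at `v`, has a strategy which guarantees
that he is never caught and either all his positions lie in a finite set, or at some time `t ≥ m`
he begins to follow the schedule: at the times `t + i`, `i ≤ N`, his distance from `v` is exactly
`h i`. -/
def ScheduleProperty {V : Type} (G : SimpleGraph V) : Prop :=
  ∀ c₀ : V, ∃ v : V, ∀ (m N : ℕ) (h : ℕ → ℕ), h 0 = 0 →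
    (∀ i, h (i + 1) ≤ h i + 1 ∧ h i ≤ h (i + 1) + 1) →
    ∃ σ : (ℕ → V) → ℕ → V, RobberStrategy σ ∧
      ∀ c : ℕ → V, c 0 = c₀ → (∀ k, Move G (c k) (c (k + 1))) →
        σ c 0 = v ∧ (∀ k, Move G (σ c k) (σ c (k + 1))) ∧ ¬ Caught c (σ c) ∧
        ((∃ S : Set V, S.Finite ∧ ∀ k, σ c k ∈ S) ∨
          ∃ t, m ≤ t ∧ ∀ i ≤ N, G.dist v (σ c (t + i)) = h i)

/-- The multiple long return property with excursions: `v` depends only on the start of the cop,
and for every number `K` of returns and all delays `d 0, …, d K` the robber has a strategy which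
guarantees that he is never caught and either all his positions lie in a finite set, or there are
times `t 0 < … < t K` with `t 0 ≥ d 0` and `t (j + 1) ≥ t j + d (j + 1)` at which he is at `v`,
and between `t j` and `t (j + 1)` he is at some time at distance at least `d (j + 1)` from `v`. -/
def MultipleReturnProperty {V : Type} (G : SimpleGraph V) : Prop :=
  ∀ c₀ : V, ∃ v : V, ∀ (K : ℕ) (d : ℕ → ℕ),
    ∃ σ : (ℕ → V) → ℕ → V, RobberStrategy σ ∧
      ∀ c : ℕ → V, c 0 = c₀ → (∀ k, Move G (c k) (c (k + 1))) →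
        σ c 0 = v ∧ (∀ k, Move G (σ c k) (σ c (k + 1))) ∧ ¬ Caught c (σ c) ∧
        ((∃ S : Set V, S.Finite ∧ ∀ k, σ c k ∈ S) ∨
          ∃ t : ℕ → ℕ, d 0 ≤ t 0 ∧ (∀ j ≤ K, σ c (t j) = v) ∧
            ∀ j < K, t j < t (j + 1) ∧ t j + d (j + 1) ≤ t (j + 1) ∧
              ∃ u, t j ≤ u ∧ u ≤ t (j + 1) ∧ d (j + 1) ≤ G.dist v (σ c u))

/-- zigzag: the distance of `i` from the nearest multiple of `2 n` -/
def zig (n : ℕ) (i : ℕ) : ℕ := min (i % (2 * n)) (2 * n - i % (2 * n))

theorem zig_zero (n : ℕ) : zig n 0 = 0 := by simp [zig]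

theorem zig_mul (n j : ℕ) : zig n (2 * n * j) = 0 := by simp [zig]

theorem zig_mid (n j : ℕ) (hn : 0 < n) : zig n (2 * n * j + n) = n := by
  unfold zig
  rw [Nat.mul_add_mod, Nat.mod_eq_of_lt (by omega)]
  omega

theorem zig_lip (n i : ℕ) (hn : 0 < n) : zig n (i + 1) ≤ zig n i + 1 ∧ zig n i ≤ zig n (i + 1) + 1 := by
  unfold zig
  have h1 := Nat.mod_lt i (show 2 * n > 0 by omega)
  have h2 : (i + 1) % (2 * n) = if i % (2 * n) + 1 = 2 * n then 0 else i % (2 * n) + 1 := by
    have e : 2 * n * (i / (2 * n)) + i % (2 * n) = i := Nat.div_add_mod i (2 * n)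
    split_ifs with h
    · have e2 : i + 1 = 2 * n * (i / (2 * n) + 1) := by rw [mul_add, mul_one]; omega
      rw [e2, Nat.mul_mod_right]
    · have e2 : i + 1 = 2 * n * (i / (2 * n)) + (i % (2 * n) + 1) := by omega
      rw [e2, Nat.mul_add_mod, Nat.mod_eq_of_lt (by omega)]
  rw [h2]
  split_ifs <;> constructor <;> omega

theorem ScheduleProperty.multiple {V : Type} {G : SimpleGraph V} (hG : G.Connected)
    (h : ScheduleProperty G) : MultipleReturnProperty G := by
  intro c₀
  obtain ⟨v, hv⟩ := h c₀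
  refine ⟨v, fun K d => ?_⟩
  obtain ⟨n, hn0, hn⟩ : ∃ n : ℕ, 0 < n ∧ ∀ j ≤ K + 1, d j ≤ n := by
    refine ⟨∑ j ∈ Finset.range (K + 2), d j + 1, by omega, fun j hj => ?_⟩
    have := Finset.single_le_sum (f := d) (fun _ _ => Nat.zero_le _)
      (Finset.mem_range.2 (show j < K + 2 by omega))
    omega
  obtain ⟨σ, h1, h2⟩ := hv n (2 * n * K) (zig n) (zig_zero n) (fun i => zig_lip n i hn0)
  refine ⟨σ, h1, fun c hc0 hc => ?_⟩
  obtain ⟨g1, g2, g3, g4⟩ := h2 c hc0 hc
  refine ⟨g1, g2, g3, ?_⟩
  rcases g4 with g4 | ⟨t, k1, k2⟩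
  · exact Or.inl g4
  · refine Or.inr ⟨fun j => t + 2 * n * j, ?_, ?_, ?_⟩
    · have := hn 0 (by omega)
      simp only [mul_zero, add_zero]
      omega
    · intro j hj
      have e := k2 (2 * n * j) (Nat.mul_le_mul_left _ hj)
      rw [zig_mul] at e
      exact (hG.dist_eq_zero_iff.1 e).symm
    · intro j hj
      have e1 : 2 * n * (j + 1) = 2 * n * j + 2 * n := by ring
      have e2 : 2 * n * (j + 1) ≤ 2 * n * K := Nat.mul_le_mul_left _ hj
      have e3 := hn (j + 1) (by omega)
      refine ⟨by simp only; omega, by simp only; omega, t + 2 * n * j + n, by simp only; omega,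
        by simp only; omega, ?_⟩
      have e := k2 (2 * n * j + n) (by omega)
      rw [zig_mid _ _ hn0] at e
      rw [add_assoc, e]
      exact e3

theorem MultipleReturnProperty.double {V : Type} {G : SimpleGraph V}
    (h : MultipleReturnProperty G) : DoubleLongReturnProperty G := by
  intro c₀
  obtain ⟨v, hv⟩ := h c₀
  refine ⟨v, fun m n _ _ => ?_⟩
  obtain ⟨σ, h1, h2⟩ := hv 1 (fun j => if j = 0 then m else n)
  refine ⟨σ, h1, fun c hc0 hc => ?_⟩
  obtain ⟨g1, g2, g3, g4⟩ := h2 c hc0 hc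
  refine ⟨g1, g2, g3, ?_⟩
  rcases g4 with g4 | ⟨t, k1, k2, k3⟩
  · exact Or.inl g4
  · refine Or.inr ⟨t 0, t 1, by simpa using k1, ?_, k2 0 (by omega), k2 1 le_rfl⟩
    simpa using (k3 0 (by omega)).2.1

/-! ## The graph -/

abbrev Vt := ℤ × ℤ × Fin 6

/-- equal or adjacent in the 6-cycle -/
def near (a b : Fin 6) : Prop := a = b ∨ b = a + 1 ∨ a = b + 1

instance : DecidableRel near := fun a b => by unfold near; infer_instance

def fold : Fin 6 → Fin 6 := ![0, 1, 2, 3, 2, 1]

theorem fold_le : ∀ a : Fin 6, fold a ≤ 3 := by decide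
theorem fold_id : ∀ a : Fin 6, a ≤ 3 → fold a = a := by decide
theorem fold_fold : ∀ a : Fin 6, fold (fold a) = fold a := by decide

def nf (x : Vt) : Vt :=
  if x.2.2 ≤ 3 then (x.1, 0, x.2.2) else if x.1 < x.2.1 then x else (x.1, 0, fold x.2.2)

theorem nf_fst (x : Vt) : (nf x).1 = x.1 := by unfold nf; split_ifs <;> rfl

theorem nf_fold (x : Vt) : fold (nf x).2.2 = fold x.2.2 := by
  unfold nf; split_ifs <;> simp [fold_fold]

theorem nf_nf (x : Vt) : nf (nf x) = nf x := by
  obtain ⟨i, R, a⟩ := x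
  by_cases h : a ≤ 3
  · simp [nf, h]
  · by_cases h2 : i < R
    · simp [nf, h, h2]
    · simp [nf, h, h2, fold_le]

def up (x : Vt) : Vt := (x.1 + 1, x.2.1, x.2.2)

theorem nf_up_nf (x : Vt) : nf (up (nf x)) = nf (up x) := by
  obtain ⟨i, R, a⟩ := x
  by_cases h : a ≤ 3
  · simp [nf, h, up]
  · by_cases h2 : i < R
    · rw [show nf (i, R, a) = (i, R, a) by simp [nf, h, h2]]
    · have h3 : ¬ (i + 1 < R) := by omega
      simp [nf, h, h2, h3, fold_le, up]

theorem nf_up {x y : Vt} (h : nf x = nf y) : nf (up x) = nf (up y) := by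
  rw [← nf_up_nf x, h, nf_up_nf]

def St (x y : Vt) : Prop :=
  |x.1 - y.1| ≤ 1 ∧ ∃ (R : ℤ) (a b : Fin 6), near a b ∧ nf x = nf (x.1, R, a) ∧ nf y = nf (y.1, R, b)

theorem St_refl (x : Vt) : St x x := ⟨by simp, x.2.1, x.2.2, x.2.2, Or.inl rfl, rfl, rfl⟩

theorem near_symm : ∀ a b : Fin 6, near a b → near b a := by decide

theorem St_symm {x y : Vt} (h : St x y) : St y x := by
  obtain ⟨h1, R, a, b, h2, h3, h4⟩ := h
  exact ⟨by rw [abs_sub_comm]; exact h1, R, b, a, near_symm _ _ h2, h4, h3⟩

theorem St_nf {x y : Vt} (h : St x y) : St (nf x) (nf y) := by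
  obtain ⟨h1, R, a, b, h2, h3, h4⟩ := h
  refine ⟨by rw [nf_fst, nf_fst]; exact h1, R, a, b, h2, ?_, ?_⟩
  · rw [nf_nf, nf_fst]; exact h3
  · rw [nf_nf, nf_fst]; exact h4

theorem St_of (i j R : ℤ) (a b : Fin 6) (h : |i - j| ≤ 1) (hab : near a b) :
    St (i, R, a) (j, R, b) := ⟨h, R, a, b, hab, rfl, rfl⟩

theorem St_up {x y : Vt} (h : St x y) : St (up x) (up y) := by
  obtain ⟨h1, R, a, b, h2, h3, h4⟩ := h
  exact ⟨by simpa [up] using h1, R, a, b, h2, nf_up h3, nf_up h4⟩

theorem St_up' {x y : Vt} (h : St x y) (hxy : x.1 ≤ y.1) : St (up x) y := by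
  obtain ⟨h1, R, a, b, h2, h3, h4⟩ := h
  refine ⟨?_, R, a, b, h2, nf_up h3, h4⟩
  rw [abs_le] at h1 ⊢
  simp only [up]
  omega

def upn (b : ℕ) (x : Vt) : Vt := (x.1 + b, x.2.1, x.2.2)

theorem upn_zero (x : Vt) : upn 0 x = x := by simp [upn]

theorem upn_succ (b : ℕ) (x : Vt) : upn (b + 1) x = up (upn b x) := by
  simp [upn, up, add_assoc]

theorem St_upn {x y : Vt} (h : St x y) (b : ℕ) : St (upn b x) (upn b y) := by
  induction b with
  | zero => simpa [upn_zero] using h
  | succ b ih => rw [upn_succ, upn_succ]; exact St_up ih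

theorem St_upn' {x y : Vt} (h : St x y) (hxy : x.1 ≤ y.1) (b : ℕ) :
    St (upn (b + 1) x) (upn b y) := by
  rw [upn_succ]
  refine St_up' (St_upn h b) ?_
  simpa [upn] using hxy

def Gr : SimpleGraph Vt where
  Adj x y := x ≠ y ∧ St x y
  symm := ⟨fun _ _ h => ⟨h.1.symm, St_symm h.2⟩⟩
  loopless := ⟨fun _ h => h.1 rfl⟩

theorem Move_iff (x y : Vt) : Move Gr x y ↔ St x y := by
  constructor
  · rintro (h | h)
    · rw [h]; exact St_refl _
    · exact h.2
  · intro h
    by_cases hxy : x = y
    · exact Or.inl hxy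
    · exact Or.inr ⟨hxy, h⟩

/-! ## Connectedness -/

theorem reach_of_St {x y : Vt} (h : St x y) : Gr.Reachable x y := by
  by_cases hxy : x = y
  · rw [hxy]
  · exact SimpleGraph.Adj.reachable (⟨hxy, h⟩ : Gr.Adj x y)

theorem reach_upn (x : Vt) (b : ℕ) : Gr.Reachable x (upn b x) := by
  induction b with
  | zero => rw [upn_zero]
  | succ b ih =>
    refine ih.trans (reach_of_St ?_)
    rw [upn_succ]
    refine St_of _ _ _ _ _ ?_ (Or.inl rfl)
    rw [abs_le]
    simp only [upn]
    constructor <;> omega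

theorem nf_high (x : Vt) (h : x.2.1 ≤ x.1) : nf x = (x.1, 0, fold x.2.2) := by
  obtain ⟨i, R, a⟩ := x
  simp only at h
  by_cases h2 : a ≤ 3
  · simp [nf, h2, fold_id a h2]
  · have : ¬ (i < R) := by omega
    simp [nf, h2, this]

theorem St_high (x : Vt) (h : x.2.1 ≤ x.1) : St x (x.1, 0, fold x.2.2) := by
  refine ⟨by simp, 0, fold x.2.2, fold x.2.2, Or.inl rfl, ?_, rfl⟩
  rw [nf_high x h]
  simp [nf, fold_le]

theorem reach_base (H : ℕ) (a : Fin 6) : Gr.Reachable ((H : ℤ), 0, a) (0, 0, 0) := by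
  have h1 : ∀ a : Fin 6, Gr.Reachable ((H : ℤ), (0 : ℤ), a) ((H : ℤ), 0, 0) := by
    intro a
    have hs : ∀ a : Fin 6, Gr.Reachable ((H : ℤ), (0 : ℤ), a + 1) ((H : ℤ), (0 : ℤ), a) := fun a =>
      reach_of_St (St_of _ _ _ _ _ (by simp) (Or.inr (Or.inr rfl)))
    have e1 := hs 0
    have e2 := hs 1
    have e3 := hs 2
    have e4 := hs 3
    have e5 := hs 4
    fin_cases a
    · exact SimpleGraph.Reachable.refl _
    · exact e1
    · exact e2.trans e1
    · exact (e3.trans e2).trans e1
    · exact ((e4.trans e3).trans e2).trans e1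
    · exact (((e5.trans e4).trans e3).trans e2).trans e1
  have h2 := reach_upn ((0 : ℤ), (0 : ℤ), (0 : Fin 6)) H
  have h3 : upn H ((0 : ℤ), (0 : ℤ), (0 : Fin 6)) = ((H : ℤ), 0, 0) := by simp [upn]
  rw [h3] at h2
  exact (h1 a).trans h2.symm

theorem Gr_connected : Gr.Connected := by
  have key : ∀ x : Vt, Gr.Reachable x (0, 0, 0) := by
    intro x
    obtain ⟨i, R, a⟩ := x
    have q1 := le_abs_self i
    have q2 := neg_abs_le i
    have q3 := le_abs_self R
    have q4 := neg_abs_le R
    have h1 := reach_upn (i, R, a) (i.natAbs + R.natAbs)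
    have h2 := St_high (upn (i.natAbs + R.natAbs) (i, R, a)) (by simp only [upn]; push_cast; omega)
    obtain ⟨H, hH⟩ : ∃ H : ℕ, (upn (i.natAbs + R.natAbs) (i, R, a)).1 = (H : ℤ) :=
      ⟨(i + (i.natAbs + R.natAbs : ℕ)).toNat, by simp only [upn]; push_cast; omega⟩
    rw [hH] at h2
    exact (h1.trans (reach_of_St h2)).trans (reach_base H _)
  exact { preconnected := fun x y => (key x).trans (key y).symm, nonempty := ⟨(0, 0, 0)⟩ }

theorem walk_bound {x y : Vt} (p : Gr.Walk x y) : |x.1 - y.1| ≤ p.length := by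
  induction p with
  | nil => simp
  | cons h p ih =>
    have h1 := abs_le.1 h.2.1
    have h2 := abs_le.1 ih
    rw [SimpleGraph.Walk.length_cons, abs_le]
    push_cast
    constructor <;> omega

theorem dist_bound (x y : Vt) : |x.1 - y.1| ≤ Gr.dist x y := by
  obtain ⟨p, hp⟩ := Gr_connected.exists_walk_length_eq_dist x y
  rw [← hp]
  exact walk_bound p

/-! ## The cop -/

def tw (a s : Fin 6) : Fin 6 := if a < s then a + 1 else if s < a then a - 1 else a

theorem near_tw : ∀ a s : Fin 6, near a (tw a s) := by decide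

open Classical in
noncomputable def nextc (p x : Vt) : Vt :=
  if h : ∃ b, St p (upn b x) then upn (Nat.find h) x else (p.1 + 1, p.2.1, tw p.2.2 (fold x.2.2))

theorem St_nextc (p x : Vt) : St p (nextc p x) := by
  classical
  unfold nextc
  split_ifs with h
  · exact Nat.find_spec h
  · exact St_of _ _ _ _ _ (by simp) (near_tw _ _)

noncomputable def cop (r : ℕ → Vt) : ℕ → Vt
  | 0 => (0, 0, 0)
  | k + 1 => nextc (cop r k) (r k)

theorem cop_strategy : CopStrategy cop := by
  intro r r' k
  induction k with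
  | zero => intro _; rfl
  | succ k ih =>
    intro h
    show nextc (cop r k) (r k) = nextc (cop r' k) (r' k)
    rw [ih (fun i hi => h i (by omega)), h k (by omega)]

theorem nextc_le {p x : Vt} {b : ℕ} (h : St p (upn b x)) : ∃ b' ≤ b, nextc p x = upn b' x := by
  classical
  have h' : ∃ b, St p (upn b x) := ⟨b, h⟩
  refine ⟨Nat.find h', Nat.find_min' h' h, ?_⟩
  unfold nextc
  rw [dif_pos h']

theorem aligned (r : ℕ → Vt) (hr : ∀ k, St (r k) (r (k + 1))) (hn : ¬ Caught (cop r) r) :
    ∀ (b k : ℕ), cop r (k + 1) = upn b (r k) → ∀ x, {k | r k = x}.Finite := by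
  intro b
  induction b using Nat.strong_induction_on with
  | _ b ih =>
    intro k hk
    have hA : ∀ j, ∃ b' ≤ b, cop r (k + j + 1) = upn b' (r (k + j)) := by
      intro j
      induction j with
      | zero => exact ⟨b, le_refl _, hk⟩
      | succ j ihj =>
        obtain ⟨b', hb', e⟩ := ihj
        have h1 : St (cop r (k + j + 1)) (upn b' (r (k + j + 1))) := by
          rw [e]; exact St_upn (hr _) b'
        obtain ⟨b'', hb'', e''⟩ := nextc_le h1
        exact ⟨b'', by omega, e''⟩
    by_cases hdesc : ∀ j, (r (k + j + 1)).1 < (r (k + j)).1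
    · intro x
      have hmono : ∀ j, (r (k + j)).1 ≤ (r k).1 - j := by
        intro j
        induction j with
        | zero => simp
        | succ j ihj =>
          have := hdesc j
          have e : k + (j + 1) = k + j + 1 := by ring
          rw [e]; push_cast; omega
      refine Set.Finite.subset (Set.finite_Iic (k + ((r k).1 - x.1).toNat)) ?_
      intro i hi
      simp only [Set.mem_ofPred_eq] at hi
      simp only [Set.mem_Iic]
      by_contra hcon
      push Not at hcon
      obtain ⟨j, rfl⟩ : ∃ j, i = k + j := ⟨i - k, by omega⟩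
      have := hmono j
      rw [hi] at this
      omega
    · push Not at hdesc
      obtain ⟨j, hj⟩ := hdesc
      obtain ⟨b', hb', e⟩ := hA j
      rcases b' with _ | b'
      · exfalso
        apply hn
        refine ⟨k + j, Or.inr ?_⟩
        rw [e, upn_zero]
      · have h1 : St (cop r (k + j + 1)) (upn b' (r (k + j + 1))) := by
          rw [e]; exact St_upn' (hr _) hj b'
        obtain ⟨b'', hb'', e''⟩ := nextc_le h1
        exact ih b'' (by omega) (k + j + 1) e''

theorem fold_near : ∀ a b : Fin 6, near a b → near (fold a) (fold b) := by decide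

theorem St_fold {x y : Vt} (h : St x y) : near (fold x.2.2) (fold y.2.2) := by
  obtain ⟨h1, R, a, b, h2, h3, h4⟩ := h
  have e1 : fold x.2.2 = fold a := by
    rw [← nf_fold x, h3, nf_fold]
  have e2 : fold y.2.2 = fold b := by
    rw [← nf_fold y, h4, nf_fold]
  rw [e1, e2]
  exact fold_near _ _ h2

theorem tw_start : ∀ s : Fin 6, tw 0 (fold s) ≤ fold s ∧ (tw 0 (fold s) = fold s ∨ 1 ≤ (tw 0 (fold s)).val) := by
  decide

theorem tw_step : ∀ a s s' : Fin 6, a ≤ fold s → near (fold s) (fold s') →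
    tw a (fold s') ≤ fold s' ∧ (tw a (fold s') = fold s' ∨
      (a ≠ fold s ∧ a.val + 1 ≤ (tw a (fold s')).val)) := by
  decide

theorem fold_val_le : ∀ s : Fin 6, (fold s).val ≤ 3 := by decide

theorem not_aligned (r : ℕ → Vt) (hr : ∀ k, St (r k) (r (k + 1)))
    (hna : ∀ k, ¬ ∃ b, St (cop r k) (upn b (r k))) : ∀ x, {k | r k = x}.Finite := by
  classical
  have hnext : ∀ k, cop r (k + 1) =
      ((cop r k).1 + 1, (cop r k).2.1, tw (cop r k).2.2 (fold (r k).2.2)) := by
    intro k
    show nextc (cop r k) (r k) = _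
    unfold nextc
    rw [dif_neg (hna k)]
  have h1 : ∀ k : ℕ, (cop r k).1 = k ∧ (cop r k).2.1 = 0 := by
    intro k
    induction k with
    | zero => exact ⟨rfl, rfl⟩
    | succ k ih => rw [hnext k]; simp [ih.1, ih.2]
  have h2 : ∀ k : ℕ, (cop r (k + 1)).2.2 ≤ fold (r k).2.2 ∧
      ((cop r (k + 1)).2.2 = fold (r k).2.2 ∨ k + 1 ≤ (cop r (k + 1)).2.2.val) := by
    intro k
    induction k with
    | zero =>
      rw [hnext 0]
      exact tw_start _
    | succ k ih =>
      rw [hnext (k + 1)]
      have := tw_step (cop r (k + 1)).2.2 (r k).2.2 (r (k + 1)).2.2 ih.1 (St_fold (hr k))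
      refine ⟨this.1, ?_⟩
      rcases this.2 with h | ⟨h, h'⟩
      · exact Or.inl h
      · right
        have := ih.2.resolve_left h
        show k + 1 + 1 ≤ (tw (cop r (k + 1)).2.2 (fold (r (k + 1)).2.2)).val
        omega
  intro x
  refine Set.Finite.subset (Set.finite_Iic (3 + x.1.toNat + x.2.1.toNat)) ?_
  intro k hk
  simp only [Set.mem_ofPred_eq] at hk
  simp only [Set.mem_Iic]
  by_contra hcon
  push Not at hcon
  have h3 : (cop r (k + 1)).2.2 = fold (r k).2.2 := by
    rcases (h2 k).2 with h | h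
    · exact h
    · have h4 := (h2 k).1
      have h5 := fold_val_le (r k).2.2
      have h6 : (cop r (k + 1)).2.2.val ≤ (fold (r k).2.2).val := h4
      omega
  apply hna k
  refine ⟨((k : ℤ) + 1 - x.1).toNat, ?_⟩
  have e1 : upn ((k : ℤ) + 1 - x.1).toNat (r k) = ((k : ℤ) + 1, x.2.1, x.2.2) := by
    rw [hk]
    simp only [upn]
    have : x.1 + (((k : ℤ) + 1 - x.1).toNat : ℤ) = (k : ℤ) + 1 := by omega
    rw [this]
  rw [e1]
  have e2 : cop r (k + 1) = ((k : ℤ) + 1, 0, fold x.2.2) := by
    have ha := h1 (k + 1)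
    have hb := h3
    rw [hk] at hb
    ext1
    · simpa using ha.1
    · ext1
      · simpa using ha.2
      · exact hb
  have e3 : St (cop r k) (cop r (k + 1)) := St_nextc _ _
  rw [e2] at e3
  obtain ⟨g1, R, a, b, g2, g3, g4⟩ := e3
  refine ⟨g1, R, a, b, g2, g3, ?_⟩
  rw [← g4]
  rw [nf_high _ (by simp only; omega)]
  simp [nf, fold_le]

theorem Gr_weak : WeakCopWin Gr := by
  refine ⟨cop, cop_strategy, fun r hr => ⟨fun k => ?_, ?_⟩⟩
  · rw [Move_iff]; exact St_nextc _ _
  · have hr' : ∀ k, St (r k) (r (k + 1)) := fun k => (Move_iff _ _).1 (hr k)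
    by_cases hc : Caught (cop r) r
    · exact Or.inl hc
    · right
      by_cases ha : ∃ k, ∃ b, St (cop r k) (upn b (r k))
      · obtain ⟨k, b, hb⟩ := ha
        obtain ⟨b', _, e⟩ := nextc_le hb
        exact aligned r hr' hc b' k e
      · push Not at ha
        exact not_aligned r hr' (fun k => by push Not; exact ha k)

/-! ## The robber -/

def pr (R : ℤ) (x : Vt) : Fin 6 :=
  if x.2.2 ≤ 3 then x.2.2 else if x.1 < x.2.1 ∧ x.2.1 = R then x.2.2 else fold x.2.2

theorem pr_nf (R : ℤ) (x : Vt) : pr R (nf x) = pr R x := by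
  obtain ⟨i, S, a⟩ := x
  by_cases h : a ≤ 3
  · simp [nf, h, pr]
  · by_cases h2 : i < S
    · simp [nf, h, h2, pr]
    · simp [nf, h, h2, fold_le, pr]

theorem pr_same (R i : ℤ) (a : Fin 6) (h : i < R) : pr R (i, R, a) = a := by
  simp [pr, h]

theorem pr_other (R S i : ℤ) (a : Fin 6) (h : S ≠ R) : pr R (i, S, a) = fold a := by
  by_cases h2 : a ≤ 3
  · simp [pr, h2, fold_id a h2]
  · simp [pr, h, h2]

theorem pr_step (R : ℤ) {x y : Vt} (h : St x y) (hx : x.1 < R) (hy : y.1 < R) :
    near (pr R x) (pr R y) := by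
  obtain ⟨h1, S, a, b, h2, h3, h4⟩ := h
  rw [← pr_nf R x, h3, pr_nf, ← pr_nf R y, h4, pr_nf]
  by_cases hS : S = R
  · subst hS
    rw [pr_same _ _ _ hx, pr_same _ _ _ hy]
    exact h2
  · rw [pr_other _ _ _ _ hS, pr_other _ _ _ _ hS]
    exact fold_near _ _ h2

def evade (b a : Fin 6) : Fin 6 := if b = a + 1 then b + 1 else if a = b + 1 then b - 1 else b

theorem evade_spec : ∀ b a a' : Fin 6, ¬ near b a → near a a' →
    ¬ near (evade b a') a' ∧ b ≠ a' ∧ near b (evade b a') := by decide

theorem near_evade : ∀ b a : Fin 6, near b (evade b a) := by decide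

def toward (b v : Fin 6) : Fin 6 := if b = v then b else if (v - b).val ≤ 3 then b + 1 else b - 1

theorem near_toward : ∀ b v : Fin 6, near b (toward b v) := by decide

def dist6 (b v : Fin 6) : ℕ := min (v - b).val (b - v).val

theorem dist6_toward : ∀ b v : Fin 6, dist6 (toward b v) v = dist6 b v - 1 := by decide

theorem dist6_le : ∀ b v : Fin 6, dist6 b v ≤ 3 := by decide

theorem dist6_zero : ∀ b v : Fin 6, dist6 b v = 0 → b = v := by decide

def sts (R : ℤ) (v : Fin 6) (c : ℕ → Vt) : ℕ → ℕ × Fin 6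
  | 0 => (0, v)
  | k + 1 => if (sts R v c k).1 = 0 ∧ (c (k + 1)).1 < R then
      (0, evade (sts R v c k).2 (pr R (c (k + 1))))
    else ((sts R v c k).1 + 1, toward (sts R v c k).2 v)

/-- depth of the robber `u` moves after the cop first reached level `R` -/
def lev (h : ℕ → ℕ) (N u : ℕ) : ℕ :=
  if u ≤ 3 then 0 else if u ≤ 3 + N then h (u - 3) else h N + (u - (3 + N))

def pos (h : ℕ → ℕ) (N : ℕ) (R : ℤ) (s : ℕ × Fin 6) : Vt := nf (-(lev h N s.1 : ℤ), R, s.2)

theorem lev_zero (h : ℕ → ℕ) (N : ℕ) : lev h N 0 = 0 := by simp [lev]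

theorem lev_three (h : ℕ → ℕ) (h0 : h 0 = 0) (N i : ℕ) :
    lev h N (3 + i) = if i ≤ N then h i else h N + (i - N) := by
  unfold lev
  have e1 : 3 + i - 3 = i := by omega
  have e2 : 3 + i - (3 + N) = i - N := by omega
  rw [e1, e2]
  rcases Nat.eq_zero_or_pos i with h1 | h1
  · subst h1; simp [h0]
  · rw [if_neg (show ¬ 3 + i ≤ 3 by omega)]
    by_cases h3 : i ≤ N
    · rw [if_pos (show 3 + i ≤ 3 + N by omega), if_pos h3]
    · rw [if_neg (show ¬ 3 + i ≤ 3 + N by omega), if_neg h3]

theorem lev_step (h : ℕ → ℕ) (h0 : h 0 = 0) (hl : ∀ i, h (i + 1) ≤ h i + 1 ∧ h i ≤ h (i + 1) + 1)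
    (N u : ℕ) : |-(lev h N u : ℤ) - -(lev h N (u + 1) : ℤ)| ≤ 1 := by
  rw [abs_le]
  rcases Nat.lt_or_ge u 3 with h1 | h1
  · have e1 : lev h N u = 0 := by unfold lev; rw [if_pos (by omega)]
    have e2 : lev h N (u + 1) = 0 := by unfold lev; rw [if_pos (by omega)]
    rw [e1, e2]; simp
  · obtain ⟨i, rfl⟩ := Nat.exists_eq_add_of_le h1
    have h2 := hl i
    rw [add_assoc 3 i 1, lev_three h h0, lev_three h h0]
    rcases Nat.lt_trichotomy i N with h3 | h3 | h3
    · rw [if_pos (by omega), if_pos (by omega)]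
      constructor <;> omega
    · subst h3
      rw [if_pos (by omega), if_neg (by omega)]
      constructor <;> omega
    · rw [if_neg (by omega), if_neg (by omega)]
      constructor <;> omega

theorem lev_bound (h : ℕ → ℕ) (N u : ℕ) : u ≤ lev h N u + (3 + N) := by
  unfold lev
  split_ifs <;> omega

theorem lev_sched (h : ℕ → ℕ) (h0 : h 0 = 0) (N i : ℕ) (hi : i ≤ N) : lev h N (3 + i) = h i := by
  rw [lev_three h h0, if_pos hi]

def rob (h : ℕ → ℕ) (N : ℕ) (R : ℤ) (v : Fin 6) (c : ℕ → Vt) (k : ℕ) : Vt :=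
  pos h N R (sts R v c k)

theorem sts_caus (R : ℤ) (v : Fin 6) (c c' : ℕ → Vt) :
    ∀ k, (∀ i ≤ k, c i = c' i) → sts R v c k = sts R v c' k := by
  intro k
  induction k with
  | zero => intro _; rfl
  | succ k ih =>
    intro h
    simp only [sts]
    rw [ih (fun i hi => h i (by omega)), h (k + 1) (le_refl _)]

theorem rob_strategy (h : ℕ → ℕ) (N : ℕ) (R : ℤ) (v : Fin 6) : RobberStrategy (rob h N R v) := by
  intro c c' k hh
  unfold rob
  rw [sts_caus R v c c' k hh]

theorem rob_move (h : ℕ → ℕ) (h0 : h 0 = 0)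
    (hlip : ∀ i, h (i + 1) ≤ h i + 1 ∧ h i ≤ h (i + 1) + 1) (N : ℕ) (R : ℤ) (v : Fin 6)
    (c : ℕ → Vt) (k : ℕ) : St (rob h N R v c k) (rob h N R v c (k + 1)) := by
  unfold rob pos
  apply St_nf
  simp only [sts]
  split_ifs with hh
  · refine St_of _ _ _ _ _ ?_ (near_evade _ _)
    rw [hh.1]; simp
  · exact St_of _ _ _ _ _ (lev_step h h0 hlip _ _) (near_toward _ _)

def vOf (c₀ : Vt) : Fin 6 := if fold c₀.2.2 ≤ 1 then 3 else 0

theorem vOf_far : ∀ a : Fin 6, ¬ near (if fold a ≤ 1 then (3 : Fin 6) else 0) (fold a) := by decide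

theorem dist_col (a : ℕ) (v : Fin 6) : Gr.dist (0, 0, v) (-(a : ℤ), 0, v) ≤ a := by
  induction a with
  | zero => simp
  | succ a ih =>
    have h1 := Gr_connected.dist_triangle (u := ((0 : ℤ), (0 : ℤ), v)) (v := (-(a : ℤ), 0, v))
      (w := (-((a + 1 : ℕ) : ℤ), 0, v))
    have h2 : Gr.Adj (-(a : ℤ), 0, v) (-((a + 1 : ℕ) : ℤ), 0, v) := by
      refine ⟨fun e => ?_, St_of _ _ _ _ _ ?_ (Or.inl rfl)⟩
      · have := (Prod.mk.inj e).1
        push_cast at this
        omega
      · rw [abs_le]
        push_cast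
        constructor <;> omega
    rw [SimpleGraph.dist_eq_one_iff_adj.2 h2] at h1
    omega

theorem dist_eq (a : ℕ) (v : Fin 6) : Gr.dist (0, 0, v) (-(a : ℤ), 0, v) = a := by
  refine le_antisymm (dist_col a v) ?_
  have d := (abs_le.1 (dist_bound ((0 : ℤ), (0 : ℤ), v) (-(a : ℤ), 0, v))).2
  simp only at d
  omega

theorem Gr_schedule : ScheduleProperty Gr := by
  intro c₀
  refine ⟨(0, 0, vOf c₀), ?_⟩
  intro m n h h00 hlip
  set v : Fin 6 := vOf c₀ with hv
  have hv3 : v ≤ 3 := by
    rw [hv]; unfold vOf; split_ifs <;> decide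
  set R : ℤ := |c₀.1| + |c₀.2.1| + m + n + 10 with hR
  have a1 := le_abs_self c₀.1
  have a2 := le_abs_self c₀.2.1
  have a3 := abs_nonneg c₀.1
  have a4 := abs_nonneg c₀.2.1
  refine ⟨rob h n R v, rob_strategy h n R v, ?_⟩
  intro c hc0 hc
  have hc' : ∀ k, St (c k) (c (k + 1)) := fun k => (Move_iff _ _).1 (hc k)
  have hlev : ∀ k, |(c k).1 - (c (k + 1)).1| ≤ 1 := fun k => (hc' k).1
  have hle : ∀ k : ℕ, (c k).1 ≤ c₀.1 + k := by
    intro k
    induction k with
    | zero => simp [hc0]
    | succ k ih =>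
      have := abs_le.1 (hlev k)
      push_cast; omega
  -- invariants
  have inv : ∀ k : ℕ, ((sts R v c k).1 = 0 → (c k).1 < R ∧ ¬ near (sts R v c k).2 (pr R (c k))) ∧
      (1 ≤ (sts R v c k).1 → R + 1 ≤ (c k).1 + (sts R v c k).1 ∧
        ((sts R v c k).1 : ℤ) + R ≤ k + 1 + c₀.1 ∧
        dist6 (sts R v c k).2 v ≤ 3 - (sts R v c k).1) := by
    intro k
    induction k with
    | zero =>
      refine ⟨fun _ => ⟨by rw [hc0]; omega, ?_⟩, fun h => by simp [sts] at h⟩
      have e : pr R (c 0) = fold c₀.2.2 := by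
        rw [hc0]
        obtain ⟨i, S, a⟩ := c₀
        refine pr_other R S i a ?_
        simp only at a1 a2 a3 a4 hR
        omega
      rw [e]
      exact vOf_far _
    | succ k ih =>
      have hl := abs_le.1 (hlev k)
      have hlek := hle (k + 1)
      by_cases h : (sts R v c k).1 = 0 ∧ (c (k + 1)).1 < R
      · have e : sts R v c (k + 1) = (0, evade (sts R v c k).2 (pr R (c (k + 1)))) := by
          simp only [sts]; rw [if_pos h]
        rw [e]
        refine ⟨fun _ => ⟨h.2, ?_⟩, fun h' => by simp at h'⟩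
        have h1 := ih.1 h.1
        exact (evade_spec _ _ _ h1.2 (pr_step R (hc' k) h1.1 h.2)).1
      · have e : sts R v c (k + 1) = ((sts R v c k).1 + 1, toward (sts R v c k).2 v) := by
          simp only [sts]; rw [if_neg h]
        rw [e]
        refine ⟨fun h' => by simp at h', fun _ => ?_⟩
        simp only
        rw [dist6_toward]
        have hd := dist6_le (sts R v c k).2 v
        by_cases h0 : (sts R v c k).1 = 0
        · have h1 : R ≤ (c (k + 1)).1 := by
            by_contra hcon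
            exact h ⟨h0, by omega⟩
          rw [h0]
          push_cast at hlek ⊢
          refine ⟨by omega, by omega, by omega⟩
        · obtain ⟨b1, b2, b3⟩ := ih.2 (by omega)
          push_cast at hlek ⊢
          refine ⟨by omega, by omega, by omega⟩
  have hfst : ∀ k, (rob h n R v c k).1 = -(lev h n (sts R v c k).1 : ℤ) := by
    intro k; unfold rob pos; rw [nf_fst]
  have hvpos : ∀ k, lev h n (sts R v c k).1 = 0 → (sts R v c k).2 = v →
      rob h n R v c k = (0, 0, v) := by
    intro k h1 h2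
    unfold rob pos
    rw [h2, h1]
    simp [nf, hv3]
  refine ⟨hvpos 0 (by simp only [sts]; exact lev_zero h n) rfl, fun k => (Move_iff _ _).2 (rob_move h h00 hlip n R v c k), ?_, ?_⟩
  · rintro ⟨k, hk⟩
    have hl := abs_le.1 (hlev k)
    by_cases h0 : (sts R v c k).1 = 0
    · obtain ⟨i1, i2⟩ := (inv k).1 h0
      have hpr : pr R (rob h n R v c k) = (sts R v c k).2 := by
        unfold rob pos
        rw [pr_nf]
        exact pr_same _ _ _ (by omega)
      have hlb := lev_bound h n (sts R v c k).1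
      rcases hk with hk | hk
      · apply i2
        rw [hk, hpr]
        exact Or.inl rfl
      · have h1 : (c (k + 1)).1 < R := by
          rw [hk, hfst]; omega
        have := pr_step R (hc' k) i1 h1
        rw [hk, hpr] at this
        exact i2 (near_symm _ _ this)
    · obtain ⟨i1, i2, i3⟩ := (inv k).2 (by omega)
      have := hfst k
      have hlb := lev_bound h n (sts R v c k).1
      rcases hk with hk | hk
      · rw [← hk] at this
        omega
      · rw [← hk] at this
        omega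
  · by_cases hall : ∀ k, (sts R v c k).1 = 0
    · left
      refine ⟨Set.range (fun b : Fin 6 => pos h n R (0, b)), Set.finite_range _, fun k => ?_⟩
      refine ⟨(sts R v c k).2, ?_⟩
      unfold rob
      show pos h n R (0, (sts R v c k).2) = pos h n R (sts R v c k)
      have : sts R v c k = (0, (sts R v c k).2) := by
        ext1
        · exact hall k
        · rfl
      rw [← this]
    · right
      push Not at hall
      classical
      have hτ := Nat.find_spec hall
      have hmin := fun i (hi : i < Nat.find hall) => Nat.find_min hall hi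
      set τ := Nat.find hall with hτdef
      have hτ0 : τ ≠ 0 := by
        intro h
        rw [h] at hτ
        exact hτ rfl
      obtain ⟨q, hq⟩ := Nat.exists_eq_succ_of_ne_zero hτ0
      have hq0 : (sts R v c q).1 = 0 := by
        have := hmin q (by omega)
        push Not at this
        exact this
      have h1 : (sts R v c τ).1 = 1 := by
        rw [hq] at hτ ⊢
        simp only [sts] at hτ ⊢
        split_ifs at hτ ⊢ with h
        · exact absurd rfl hτ
        · simp [hq0]
      have h2 : ∀ j, (sts R v c (τ + j)).1 = 1 + j := by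
        intro j
        induction j with
        | zero => simpa using h1
        | succ j ih =>
          show (sts R v c (τ + j + 1)).1 = 1 + (j + 1)
          simp only [sts]
          rw [if_neg (by omega)]
          simp only
          omega
      refine ⟨τ + 2, ?_, fun i hi => ?_⟩
      · obtain ⟨i1, i2, i3⟩ := (inv (τ + 2)).2 (by rw [h2 2]; omega)
        rw [h2 2] at i2
        push_cast at i2
        omega
      · have e : τ + 2 + i = τ + (2 + i) := by ring
        rw [e]
        have g := h2 (2 + i)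
        obtain ⟨j1, j2, j3⟩ := (inv (τ + (2 + i))).2 (by omega)
        have e2 : (sts R v c (τ + (2 + i))).2 = v := dist6_zero _ _ (by omega)
        have e3 : rob h n R v c (τ + (2 + i)) = (-(h i : ℤ), 0, v) := by
          unfold rob pos
          rw [e2, g, show 1 + (2 + i) = 3 + i by omega, lev_sched h h00 n i hi]
          simp [nf, hv3]
        rw [e3]
        exact dist_eq _ _

end Pool.Agent.KS6_49.WC
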